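import Pool.Agent.helper95.T6.SpecE
import Pool.Agent.helper82.T6.SpecL
import Pool.Agent.helper22.T6.WNR

/-!
# T6, row END: near points of a type (the proof of WNR, `Pool/Agent/helper22/T6/WNR.lean`, with multipliers)
-/

set_option autoImplicit false

namespace Pool.Agent.T6

open Finset Pool.Agent.helper3.FT Pool.Agent.T5

/-- the data of one near point -/
structure END_P (n k M G h δ r P₁ P₂ P₄ : ℕ) (a : ℤ × ℤ × ℤ) (p : ℤ × ℤ) (x y : Fin 4 → ℤ) : Prop where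
  x0 : x 0 = p.1
  x1 : x 1 = p.2
  d2 : (n : ℤ) ^ 3 * k ∣ x 2 - h * (2 * a.1 * x 0 + a.2.1 * x 1)
  d3 : (n : ℤ) ^ 3 * k ∣ x 3 - h * (a.2.1 * x 0 + 2 * a.2.2 * x 1)
  b0 : |(x 0 : ℝ)| ≤ 4 * M
  b1 : |(x 1 : ℝ)| ≤ 4 * G
  b2 : |(x 2 : ℝ)| ≤ (n : ℝ) ^ 3 * k / M
  b3 : |(x 3 : ℝ)| ≤ (n : ℝ) ^ 3 * k / G
  y0 : (n : ℤ) ^ 3 * y 0 = h * P₄ * (P₂ * x 1) + k ^ 2 * (P₂ * x 2)
  y1 : (n : ℤ) ^ 3 * y 1 = h * P₄ * (P₁ * x 0) + 2 * n ^ 2 * (P₂ * x 2) + k ^ 2 * (P₁ * x 3)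
  y2 : (k : ℤ) * y 2 = 2 * n * y 1 - 5 * (P₂ * x 2)
  y3 : (k : ℤ) * y 3 = P₁ * x 3
  inG : InG δ r (y 0, y 1, y 2, y 3)

theorem END_ex (hWDM : WDM_stmt) (n k M G h δ r P₁ P₂ P₃ P₄ : ℕ) (a : ℤ × ℤ × ℤ) (hn : 1 ≤ n) (hk : 1 ≤ k)
    (hPP : P₁ * P₂ = P₃ * P₄) (hc : Nat.Coprime n k) (hc3 : Nat.Coprime P₃ (n * k)) (hR : RT n k P₁ P₂ P₃ a)
    (hδh : δ ∣ h) (hcδ : Nat.Coprime δ (5 * (n * k))) (hr : (δ : ℤ) ∣ (r : ℤ) * k - n) (p : ℤ × ℤ)
    (hp : p ∈ nearPts M G (h * a.1 / ((n : ℝ) ^ 3 * k)) (h * a.2.1 / ((n : ℝ) ^ 3 * k)) (h * a.2.2 / ((n : ℝ) ^ 3 * k))) :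
    ∃ x y : Fin 4 → ℤ, END_P n k M G h δ r P₁ P₂ P₄ a p x y := by
  rw [nearPts, mem_filter, mem_product, mem_Icc, mem_Icc] at hp
  obtain ⟨⟨⟨ha, hb⟩, hc', hd⟩, h1, h2⟩ := hp
  have hq : 1 ≤ n ^ 3 * k := Nat.one_le_iff_ne_zero.2 (by positivity)
  have e1 : 2 * (h * a.1 / ((n : ℝ) ^ 3 * k)) * p.1 + h * a.2.1 / ((n : ℝ) ^ 3 * k) * p.2 =
      ((h * (2 * a.1 * p.1 + a.2.1 * p.2) : ℤ) : ℝ) / ((n ^ 3 * k : ℕ) : ℝ) := by
    push_cast
    ring
  have e2 : h * a.2.1 / ((n : ℝ) ^ 3 * k) * p.1 + 2 * (h * a.2.2 / ((n : ℝ) ^ 3 * k)) * p.2 =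
      ((h * (a.2.1 * p.1 + 2 * a.2.2 * p.2) : ℤ) : ℝ) / ((n ^ 3 * k : ℕ) : ℝ) := by
    push_cast
    ring
  rw [e1] at h1
  rw [e2] at h2
  obtain ⟨ξ, hξ1, hξ2⟩ := WNR_round _ _ _ hq h1
  obtain ⟨Ξ, hΞ1, hΞ2⟩ := WNR_round _ _ _ hq h2
  push_cast at hξ1 hξ2 hΞ1 hΞ2
  obtain ⟨α, β, γ, hG, g1, g2, g3⟩ := hR.ex
  have hcq : IsCoprime ((n : ℤ) ^ 3 * k) (P₃ : ℤ) := by
    have c1 : IsCoprime (P₃ : ℤ) ((n : ℤ) * k) := by
      have := Nat.isCoprime_iff_coprime.2 hc3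
      push_cast at this
      exact this
    exact ((c1.of_mul_right_left).pow_right.mul_right c1.of_mul_right_right).symm
  have hPPz : (P₁ : ℤ) * P₂ = P₃ * P₄ := by exact_mod_cast hPP
  have hξ3 : (n : ℤ) ^ 3 * k ∣ P₂ * ξ - ((h * P₄ : ℕ) : ℤ) * (2 * α * (P₁ * p.1) + β * (P₂ * p.2)) := by
    apply hcq.dvd_of_dvd_mul_left
    obtain ⟨t1, ht1⟩ := hξ1
    obtain ⟨t2, ht2⟩ := g1
    obtain ⟨t3, ht3⟩ := g2
    refine ⟨P₂ * (P₃ * t1 + 2 * h * p.1 * t2 + h * p.2 * t3), ?_⟩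
    push_cast
    linear_combination (P₂ : ℤ) * P₃ * ht1 + 2 * P₂ * h * p.1 * ht2 + P₂ * h * p.2 * ht3 +
      (h : ℤ) * (2 * α * (P₁ * p.1) + β * (P₂ * p.2)) * hPPz
  have hΞ3 : (n : ℤ) ^ 3 * k ∣ P₁ * Ξ - ((h * P₄ : ℕ) : ℤ) * (β * (P₁ * p.1) + 2 * γ * (P₂ * p.2)) := by
    apply hcq.dvd_of_dvd_mul_left
    obtain ⟨t1, ht1⟩ := hΞ1
    obtain ⟨t2, ht2⟩ := g2
    obtain ⟨t3, ht3⟩ := g3
    refine ⟨P₁ * (P₃ * t1 + h * p.1 * t2 + 2 * h * p.2 * t3), ?_⟩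
    push_cast
    linear_combination (P₁ : ℤ) * P₃ * ht1 + P₁ * h * p.1 * ht2 + 2 * P₁ * h * p.2 * ht3 +
      (h : ℤ) * (β * (P₁ * p.1) + 2 * γ * (P₂ * p.2)) * hPPz
  obtain ⟨A, A', B, X, r1, r2, r3, r4, r5, r6⟩ := hWDM n k ((h * P₄ : ℕ) : ℤ) (P₁ * p.1) (P₂ * p.2) (P₂ * ξ) (P₁ * Ξ)
    α β γ (by exact_mod_cast (by omega : n ≠ 0))
    (by exact_mod_cast (by omega : k ≠ 0)) (Nat.isCoprime_iff_coprime.2 hc) hG hξ3 hΞ3
  have hInG := WNR_InG (hδh.mul_right P₄) hcδ hr r5 r6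
  push_cast at r1 r2
  refine ⟨![p.1, p.2, ξ, Ξ], ![A, A', B, X], ⟨rfl, rfl, hξ1, hΞ1, ?_, ?_, hξ2, hΞ2, r1, r2, r3, r4, hInG⟩⟩
  · show |(p.1 : ℝ)| ≤ 4 * M
    rw [abs_le]
    constructor
    · exact_mod_cast ha
    · exact_mod_cast hb
  · show |(p.2 : ℝ)| ≤ 4 * G
    rw [abs_le]
    constructor
    · exact_mod_cast hc'
    · exact_mod_cast hd

theorem END_li {n k M G h δ r P₁ P₂ P₄ : ℕ} {a : ℤ × ℤ × ℤ} (hn : 1 ≤ n) (hk : 1 ≤ k) (p : Fin 4 → ℤ × ℤ) (x y : Fin 4 → Fin 4 → ℤ)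
    (hP : ∀ i, END_P n k M G h δ r P₁ P₂ P₄ a (p i) (x i) (y i)) (hy : LinearIndependent ℤ y) :
    LinearIndependent ℤ x := by
  rw [Fintype.linearIndependent_iff] at hy ⊢
  intro g hg
  apply hy g
  have hX : ∀ j, ∑ i, g i * x i j = 0 := by
    intro j
    have := congrFun hg j
    simpa using this
  have hn0 : (n : ℤ) ^ 3 ≠ 0 := pow_ne_zero _ (by exact_mod_cast (by omega : n ≠ 0))
  have hk0 : (k : ℤ) ≠ 0 := by exact_mod_cast (by omega : k ≠ 0)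
  have e0 : (n : ℤ) ^ 3 * ∑ i, g i * y i 0 = h * P₄ * P₂ * ∑ i, g i * x i 1 + k ^ 2 * P₂ * ∑ i, g i * x i 2 := by
    rw [mul_sum, mul_sum, mul_sum, ← sum_add_distrib]
    exact sum_congr rfl fun i _ => by linear_combination g i * (hP i).y0
  have e1 : (n : ℤ) ^ 3 * ∑ i, g i * y i 1 = h * P₄ * P₁ * ∑ i, g i * x i 0 + 2 * n ^ 2 * P₂ * ∑ i, g i * x i 2 +
      k ^ 2 * P₁ * ∑ i, g i * x i 3 := by
    rw [mul_sum, mul_sum, mul_sum, mul_sum, ← sum_add_distrib, ← sum_add_distrib]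
    exact sum_congr rfl fun i _ => by linear_combination g i * (hP i).y1
  have e2 : (k : ℤ) * ∑ i, g i * y i 2 = 2 * n * ∑ i, g i * y i 1 - 5 * P₂ * ∑ i, g i * x i 2 := by
    rw [mul_sum, mul_sum, mul_sum, ← sum_sub_distrib]
    exact sum_congr rfl fun i _ => by linear_combination g i * (hP i).y2
  have e3 : (k : ℤ) * ∑ i, g i * y i 3 = P₁ * ∑ i, g i * x i 3 := by
    rw [mul_sum, mul_sum]
    exact sum_congr rfl fun i _ => by linear_combination g i * (hP i).y3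
  rw [hX 1, hX 2] at e0
  rw [hX 0, hX 2, hX 3] at e1
  have z0 : ∑ i, g i * y i 0 = 0 := by
    have : (n : ℤ) ^ 3 * ∑ i, g i * y i 0 = 0 := by rw [e0]; ring
    exact (mul_eq_zero.1 this).resolve_left hn0
  have z1 : ∑ i, g i * y i 1 = 0 := by
    have : (n : ℤ) ^ 3 * ∑ i, g i * y i 1 = 0 := by rw [e1]; ring
    exact (mul_eq_zero.1 this).resolve_left hn0
  have z2 : ∑ i, g i * y i 2 = 0 := by
    have : (k : ℤ) * ∑ i, g i * y i 2 = 0 := by rw [e2, z1, hX 2]; ring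
    exact (mul_eq_zero.1 this).resolve_left hk0
  have z3 : ∑ i, g i * y i 3 = 0 := by
    have : (k : ℤ) * ∑ i, g i * y i 3 = 0 := by rw [e3, hX 3]; ring
    exact (mul_eq_zero.1 this).resolve_left hk0
  funext j
  rw [Finset.sum_apply]
  simp only [Pi.smul_apply, smul_eq_mul, Pi.zero_apply]
  fin_cases j
  · exact z0
  · exact z1
  · exact z2
  · exact z3

theorem END (hWDM : WDM_stmt) (hGP : GP_stmt) (hGR : GR_stmt) (hN1 : N1_stmt) (hN2 : N2_stmt) (hN4 : N4_stmt) :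
    END_stmt := by
  classical
  intro n k M G h δ r P₁ P₂ P₃ P₄ a b ρ hn hk hM hG hh hP1 hP2 hP3 hP4 hPP hc hc3 hR hb hρ hδ hδh hcδ hr s1 s2 s3 s4
  have hex := END_ex hWDM n k M G h δ r P₁ P₂ P₃ P₄ a hn hk hPP hc hc3 hR hδh hcδ hr
  obtain ⟨N, hN⟩ : ∃ N : Finset (ℤ × ℤ), N = nearPts M G (h * a.1 / ((n : ℝ) ^ 3 * k)) (h * a.2.1 / ((n : ℝ) ^ 3 * k))
    (h * a.2.2 / ((n : ℝ) ^ 3 * k)) := ⟨_, rfl⟩
  rw [← hN] at hex ⊢
  choose! fx fy hP using hex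
  have hn0 : (n : ℤ) ≠ 0 := by exact_mod_cast (by omega : n ≠ 0)
  have hk0 : (k : ℤ) ≠ 0 := by exact_mod_cast (by omega : k ≠ 0)
  have hh0 : (h : ℤ) ≠ 0 := by exact_mod_cast (by omega : h ≠ 0)
  have hP10 : (P₁ : ℤ) ≠ 0 := by exact_mod_cast (by omega : P₁ ≠ 0)
  have hP20 : (P₂ : ℤ) ≠ 0 := by exact_mod_cast (by omega : P₂ ≠ 0)
  have hP40 : (P₄ : ℤ) ≠ 0 := by exact_mod_cast (by omega : P₄ ≠ 0)
  have hP1r : (0 : ℝ) ≤ P₁ := Nat.cast_nonneg _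
  have hP2r : (0 : ℝ) ≤ P₂ := Nat.cast_nonneg _
  have hP4r : (0 : ℝ) ≤ P₄ := Nat.cast_nonneg _
  have hnr : (0 : ℝ) < n := by exact_mod_cast hn
  have hkr : (0 : ℝ) < k := by exact_mod_cast hk
  have hMr : (0 : ℝ) < M := by exact_mod_cast hM
  have hGr : (0 : ℝ) < G := by exact_mod_cast hG
  have hb0 : 0 < b := by linarith
  have hfx : Set.InjOn fx (N : Set (ℤ × ℤ)) := by
    intro p hp p' hp' he
    have h1 := hP p hp
    have h2 := hP p' hp'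
    rw [← he] at h2
    exact Prod.ext (h1.x0.symm.trans h2.x0) (h1.x1.symm.trans h2.x1)
  have hfy : Set.InjOn fy (N : Set (ℤ × ℤ)) := by
    intro p hp p' hp' he
    have h1 := hP p hp
    have h2 := hP p' hp'
    have e0 : fy p 0 = fy p' 0 := by rw [he]
    have e1 : fy p 1 = fy p' 1 := by rw [he]
    have e2 : fy p 2 = fy p' 2 := by rw [he]
    have e3 : fy p 3 = fy p' 3 := by rw [he]
    have x3 : fx p 3 = fx p' 3 := by
      have a3 : (P₁ : ℤ) * fx p 3 = P₁ * fx p' 3 := by rw [← h1.y3, ← h2.y3, e3]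
      exact mul_left_cancel₀ hP10 a3
    have x2 : fx p 2 = fx p' 2 := by
      have a1 := h1.y2
      have a2 := h2.y2
      rw [e1, e2] at a1
      have a3 : (P₂ : ℤ) * fx p 2 = P₂ * fx p' 2 := by linarith
      exact mul_left_cancel₀ hP20 a3
    have x1 : fx p 1 = fx p' 1 := by
      have a1 := h1.y0
      have a2 := h2.y0
      rw [e0, x2] at a1
      have a3 : (h : ℤ) * P₄ * (P₂ * fx p 1) = h * P₄ * (P₂ * fx p' 1) := by linarith
      exact mul_left_cancel₀ hP20 (mul_left_cancel₀ (mul_ne_zero hh0 hP40) a3)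
    have x0 : fx p 0 = fx p' 0 := by
      have a1 := h1.y1
      have a2 := h2.y1
      rw [e1, x2, x3] at a1
      have a3 : (h : ℤ) * P₄ * (P₁ * fx p 0) = h * P₄ * (P₁ * fx p' 0) := by linarith
      exact mul_left_cancel₀ hP10 (mul_left_cancel₀ (mul_ne_zero hh0 hP40) a3)
    exact Prod.ext (by rw [← h1.x0, ← h2.x0, x0]) (by rw [← h1.x1, ← h2.x1, x1])
  by_cases hLI : ∃ w : Fin 4 → Fin 4 → ℤ, (∀ i, w i ∈ N.image fx) ∧ LinearIndependent ℤ w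
  · left
    obtain ⟨w, hw, hwl⟩ := hLI
    obtain ⟨q, hqdef⟩ : ∃ q : ℕ, q = n ^ 3 * k := ⟨_, rfl⟩
    have hq1 : 1 ≤ q := by rw [hqdef]; exact Nat.one_le_iff_ne_zero.2 (by positivity)
    have : NeZero q := ⟨by omega⟩
    have hqz : (n : ℤ) ^ 3 * k = (q : ℤ) := by rw [hqdef]; push_cast; ring
    have hqr : (n : ℝ) ^ 3 * k = (q : ℝ) := by rw [hqdef]; push_cast; ring
    have hqr0 : (0 : ℝ) < q := by exact_mod_cast hq1
    obtain ⟨φ, hφ⟩ : ∃ φ : (Fin 4 → ℤ) →+ ZMod q × ZMod q, ∀ x, φ x =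
        (((x 2 - h * (2 * a.1 * x 0 + a.2.1 * x 1) : ℤ) : ZMod q), ((x 3 - h * (a.2.1 * x 0 + 2 * a.2.2 * x 1) : ℤ) : ZMod q)) := by
      refine ⟨AddMonoidHom.mk' (fun x => (((x 2 - h * (2 * a.1 * x 0 + a.2.1 * x 1) : ℤ) : ZMod q),
        ((x 3 - h * (a.2.1 * x 0 + 2 * a.2.2 * x 1) : ℤ) : ZMod q))) ?_, fun x => rfl⟩
      intro x y
      refine Prod.ext ?_ ?_
      · show ((((x + y) 2 - h * (2 * a.1 * (x + y) 0 + a.2.1 * (x + y) 1) : ℤ)) : ZMod q) =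
          ((x 2 - h * (2 * a.1 * x 0 + a.2.1 * x 1) : ℤ) : ZMod q) + ((y 2 - h * (2 * a.1 * y 0 + a.2.1 * y 1) : ℤ) : ZMod q)
        rw [← Int.cast_add]
        congr 1
        simp only [Pi.add_apply]
        ring
      · show ((((x + y) 3 - h * (a.2.1 * (x + y) 0 + 2 * a.2.2 * (x + y) 1) : ℤ)) : ZMod q) =
          ((x 3 - h * (a.2.1 * x 0 + 2 * a.2.2 * x 1) : ℤ) : ZMod q) + ((y 3 - h * (a.2.1 * y 0 + 2 * a.2.2 * y 1) : ℤ) : ZMod q)
        rw [← Int.cast_add]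
        congr 1
        simp only [Pi.add_apply]
        ring
    have hsur : Function.Surjective φ := by
      rintro ⟨g1, g2⟩
      obtain ⟨a', ha'⟩ := ZMod.intCast_surjective g1
      obtain ⟨c, hc'⟩ := ZMod.intCast_surjective g2
      refine ⟨![0, 0, a', c], ?_⟩
      rw [hφ]
      refine Prod.ext ?_ ?_
      · show (((a' - h * (2 * a.1 * 0 + a.2.1 * 0) : ℤ)) : ZMod q) = g1
        rw [← ha']
        congr 1
        ring
      · show (((c - h * (a.2.1 * 0 + 2 * a.2.2 * 0) : ℤ)) : ZMod q) = g2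
        rw [← hc']
        congr 1
        ring
    have hmem : ∀ v ∈ N.image fx, φ v = 0 ∧ ∀ j : Fin 4, |(v j : ℝ)| ≤ (![4 * (M : ℝ), 4 * G, q / M, q / G] : Fin 4 → ℝ) j := by
      intro v hv
      rw [mem_image] at hv
      obtain ⟨p, hp, rfl⟩ := hv
      have h1 := hP p hp
      refine ⟨?_, ?_⟩
      · rw [hφ]
        refine Prod.ext ?_ ?_
        · exact (ZMod.intCast_zmod_eq_zero_iff_dvd _ _).2 (by rw [← hqz]; exact h1.d2)
        · exact (ZMod.intCast_zmod_eq_zero_iff_dvd _ _).2 (by rw [← hqz]; exact h1.d3)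
      · intro j
        fin_cases j
        · exact h1.b0
        · exact h1.b1
        · have := h1.b2
          rw [hqr] at this
          exact this
        · have := h1.b3
          rw [hqr] at this
          exact this
    have key := hGP (ZMod q × ZMod q) φ hsur (![4 * (M : ℝ), 4 * G, q / M, q / G] : Fin 4 → ℝ) w hwl
      (fun i => hmem _ (hw i)) (N.image fx) hmem
    rw [Fintype.card_prod, ZMod.card, Fin.prod_univ_four, card_image_of_injOn hfx] at key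
    have key2 : (11 * (![4 * (M : ℝ), 4 * G, q / M, q / G] : Fin 4 → ℝ) 0) * (11 * (![4 * (M : ℝ), 4 * G, q / M, q / G] : Fin 4 → ℝ) 1) *
        (11 * (![4 * (M : ℝ), 4 * G, q / M, q / G] : Fin 4 → ℝ) 2) * (11 * (![4 * (M : ℝ), 4 * G, q / M, q / G] : Fin 4 → ℝ) 3) =
        234256 * ((q : ℝ) * q) := by
      show (11 * (4 * (M : ℝ))) * (11 * (4 * G)) * (11 * (q / M)) * (11 * (q / G)) = 234256 * ((q : ℝ) * q)
      field_simp
      norm_num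
    rw [key2] at key
    push_cast at key
    exact le_of_mul_le_mul_right key (by positivity)
  · right
    push Not at hLI
    obtain ⟨⟨v0, hv0, hv0G, hv0n⟩, hlam⟩ := hN4 b δ r hb hδ
    have hnrm : ∀ v : V4, v ≠ 0 → 0 < nrm b v := by
      intro v hv
      by_contra hcon
      push Not at hcon
      apply hv
      have h1 := (max_le_iff.1 hcon)
      have h2 := max_le_iff.1 h1.1
      have h3 := max_le_iff.1 h1.2
      have a1 : |(v.1 : ℝ)| ≤ 0 := by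
        have := (div_le_iff₀ (by positivity : (0 : ℝ) < b ^ 5)).1 h2.1
        linarith
      have a2 : |(v.2.1 : ℝ)| ≤ 0 := by
        have := (div_le_iff₀ hb0).1 h2.2
        linarith
      have a3 : |(v.2.2.1 : ℝ)| ≤ 0 := by
        by_contra hx
        push Not at hx
        have := mul_pos hx hb0
        linarith [h3.1]
      have a4 : |(v.2.2.2 : ℝ)| ≤ 0 := by
        by_contra hx
        push Not at hx
        have := mul_pos hx (by positivity : (0 : ℝ) < b ^ 5)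
        linarith [h3.2]
      have b1 : v.1 = 0 := by exact_mod_cast abs_nonpos_iff.1 a1
      have b2 : v.2.1 = 0 := by exact_mod_cast abs_nonpos_iff.1 a2
      have b3 : v.2.2.1 = 0 := by exact_mod_cast abs_nonpos_iff.1 a3
      have b4 : v.2.2.2 = 0 := by exact_mod_cast abs_nonpos_iff.1 a4
      exact Prod.ext b1 (Prod.ext b2 (Prod.ext b3 b4))
    have hlam0 : 0 < lamb b δ r := by rw [← hv0n]; exact hnrm v0 hv0
    have hSpos : ∀ j : Fin 4, 0 < (![b ^ 5, b, 1 / b, 1 / b ^ 5] : Fin 4 → ℝ) j := by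
      intro j
      fin_cases j
      · show 0 < b ^ 5
        positivity
      · exact hb0
      · show 0 < 1 / b
        positivity
      · show 0 < 1 / b ^ 5
        positivity
    have key := hGR (![b ^ 5, b, 1 / b, 1 / b ^ 5] : Fin 4 → ℝ) ρ (lamb b δ r) (N.image fy) hSpos hlam0 hρ ?_ ?_ ?_
    · rw [card_image_of_injOn hfy] at key
      exact key
    · intro v hv
      rw [mem_image] at hv
      obtain ⟨p, hp, rfl⟩ := hv
      have h1 := hP p hp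
      have hn3 : (0 : ℝ) < (n : ℝ) ^ 3 := by positivity
      have hhr : (0 : ℝ) ≤ h := Nat.cast_nonneg h
      have hA : |(fy p 0 : ℝ)| ≤ P₂ * (4 * ((h : ℝ) * P₄) * G / (n : ℝ) ^ 3 + (k : ℝ) ^ 3 / M) := by
        have a1 : (n : ℝ) ^ 3 * (fy p 0 : ℝ) = P₂ * (h * P₄ * (fx p 1 : ℝ) + (k : ℝ) ^ 2 * (fx p 2 : ℝ)) := by
          have a0 : (n : ℝ) ^ 3 * (fy p 0 : ℝ) = h * P₄ * (P₂ * (fx p 1 : ℝ)) + (k : ℝ) ^ 2 * (P₂ * (fx p 2 : ℝ)) := by
            exact_mod_cast h1.y0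
          rw [a0]
          ring
        have a2 : (n : ℝ) ^ 3 * |(fy p 0 : ℝ)| ≤ P₂ * (h * P₄ * (4 * G) + (k : ℝ) ^ 2 * ((n : ℝ) ^ 3 * k / M)) := by
          rw [← abs_of_pos hn3, ← abs_mul, a1, abs_of_pos hn3, abs_mul, abs_of_nonneg hP2r]
          refine mul_le_mul_of_nonneg_left ((abs_add_le _ _).trans (add_le_add ?_ ?_)) hP2r
          · rw [abs_mul, abs_of_nonneg (mul_nonneg hhr hP4r)]
            exact mul_le_mul_of_nonneg_left h1.b1 (mul_nonneg hhr hP4r)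
          · rw [abs_mul, abs_of_nonneg (by positivity : (0 : ℝ) ≤ (k : ℝ) ^ 2)]
            exact mul_le_mul_of_nonneg_left h1.b2 (by positivity)
        have a3 : (n : ℝ) ^ 3 * (P₂ * (4 * ((h : ℝ) * P₄) * G / (n : ℝ) ^ 3 + (k : ℝ) ^ 3 / M)) =
            P₂ * (h * P₄ * (4 * G) + (k : ℝ) ^ 2 * ((n : ℝ) ^ 3 * k / M)) := by
          field_simp
        rw [← a3] at a2
        exact le_of_mul_le_mul_left a2 hn3
      have hA' : |(fy p 1 : ℝ)| ≤ P₁ * (4 * ((h : ℝ) * P₄) * M / (n : ℝ) ^ 3 + (k : ℝ) ^ 3 / G) +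
          P₂ * (2 * (n : ℝ) ^ 2 * k / M) := by
        have a1 : (n : ℝ) ^ 3 * (fy p 1 : ℝ) = P₁ * (h * P₄ * (fx p 0 : ℝ) + (k : ℝ) ^ 2 * (fx p 3 : ℝ)) +
            P₂ * (2 * (n : ℝ) ^ 2 * (fx p 2 : ℝ)) := by
          have a0 : (n : ℝ) ^ 3 * (fy p 1 : ℝ) = h * P₄ * (P₁ * (fx p 0 : ℝ)) + 2 * (n : ℝ) ^ 2 * (P₂ * (fx p 2 : ℝ)) +
              (k : ℝ) ^ 2 * (P₁ * (fx p 3 : ℝ)) := by
            exact_mod_cast h1.y1
          rw [a0]
          ring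
        have a2 : (n : ℝ) ^ 3 * |(fy p 1 : ℝ)| ≤ P₁ * (h * P₄ * (4 * M) + (k : ℝ) ^ 2 * ((n : ℝ) ^ 3 * k / G)) +
            P₂ * (2 * (n : ℝ) ^ 2 * ((n : ℝ) ^ 3 * k / M)) := by
          rw [← abs_of_pos hn3, ← abs_mul, a1, abs_of_pos hn3]
          refine (abs_add_le _ _).trans (add_le_add ?_ ?_)
          · rw [abs_mul, abs_of_nonneg hP1r]
            refine mul_le_mul_of_nonneg_left ((abs_add_le _ _).trans (add_le_add ?_ ?_)) hP1r
            · rw [abs_mul, abs_of_nonneg (mul_nonneg hhr hP4r)]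
              exact mul_le_mul_of_nonneg_left h1.b0 (mul_nonneg hhr hP4r)
            · rw [abs_mul, abs_of_nonneg (by positivity : (0 : ℝ) ≤ (k : ℝ) ^ 2)]
              exact mul_le_mul_of_nonneg_left h1.b3 (by positivity)
          · rw [abs_mul, abs_of_nonneg hP2r, abs_mul, abs_of_nonneg (by positivity : (0 : ℝ) ≤ 2 * (n : ℝ) ^ 2)]
            exact mul_le_mul_of_nonneg_left (mul_le_mul_of_nonneg_left h1.b2 (by positivity)) hP2r
        have a3 : (n : ℝ) ^ 3 * (P₁ * (4 * ((h : ℝ) * P₄) * M / (n : ℝ) ^ 3 + (k : ℝ) ^ 3 / G) +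
            P₂ * (2 * (n : ℝ) ^ 2 * k / M)) =
            P₁ * (h * P₄ * (4 * M) + (k : ℝ) ^ 2 * ((n : ℝ) ^ 3 * k / G)) +
            P₂ * (2 * (n : ℝ) ^ 2 * ((n : ℝ) ^ 3 * k / M)) := by
          field_simp
        rw [← a3] at a2
        exact le_of_mul_le_mul_left a2 hn3
      have hB : |(fy p 2 : ℝ)| ≤ 2 * (n : ℝ) / k * (P₁ * (4 * ((h : ℝ) * P₄) * M / (n : ℝ) ^ 3 + (k : ℝ) ^ 3 / G) +
          P₂ * (2 * (n : ℝ) ^ 2 * k / M)) + P₂ * (5 * (n : ℝ) ^ 3 / M) := by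
        have a1 : (k : ℝ) * (fy p 2 : ℝ) = 2 * n * (fy p 1 : ℝ) - 5 * (P₂ * (fx p 2 : ℝ)) := by exact_mod_cast h1.y2
        have a2 : (k : ℝ) * |(fy p 2 : ℝ)| ≤ 2 * n * (P₁ * (4 * ((h : ℝ) * P₄) * M / (n : ℝ) ^ 3 + (k : ℝ) ^ 3 / G) +
            P₂ * (2 * (n : ℝ) ^ 2 * k / M)) + 5 * (P₂ * ((n : ℝ) ^ 3 * k / M)) := by
          rw [← abs_of_pos hkr, ← abs_mul, a1, abs_of_pos hkr]
          refine (abs_sub _ _).trans (add_le_add ?_ ?_)
          · rw [abs_mul, abs_of_nonneg (by positivity : (0 : ℝ) ≤ 2 * (n : ℝ))]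
            exact mul_le_mul_of_nonneg_left hA' (by positivity)
          · rw [abs_mul, abs_of_nonneg (by norm_num : (0 : ℝ) ≤ 5), abs_mul, abs_of_nonneg hP2r]
            exact mul_le_mul_of_nonneg_left (mul_le_mul_of_nonneg_left h1.b2 hP2r) (by norm_num)
        have a3 : (k : ℝ) * (2 * (n : ℝ) / k * (P₁ * (4 * ((h : ℝ) * P₄) * M / (n : ℝ) ^ 3 + (k : ℝ) ^ 3 / G) +
            P₂ * (2 * (n : ℝ) ^ 2 * k / M)) + P₂ * (5 * (n : ℝ) ^ 3 / M)) =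
            2 * n * (P₁ * (4 * ((h : ℝ) * P₄) * M / (n : ℝ) ^ 3 + (k : ℝ) ^ 3 / G) +
            P₂ * (2 * (n : ℝ) ^ 2 * k / M)) + 5 * (P₂ * ((n : ℝ) ^ 3 * k / M)) := by
          field_simp
        rw [← a3] at a2
        exact le_of_mul_le_mul_left a2 hkr
      have hX : |(fy p 3 : ℝ)| ≤ P₁ * ((n : ℝ) ^ 3 / G) := by
        have a1 : (k : ℝ) * (fy p 3 : ℝ) = P₁ * (fx p 3 : ℝ) := by exact_mod_cast h1.y3
        have a2 : (k : ℝ) * |(fy p 3 : ℝ)| ≤ P₁ * ((n : ℝ) ^ 3 * k / G) := by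
          rw [← abs_of_pos hkr, ← abs_mul, a1, abs_of_pos hkr, abs_mul, abs_of_nonneg hP1r]
          exact mul_le_mul_of_nonneg_left h1.b3 hP1r
        have a3 : (k : ℝ) * (P₁ * ((n : ℝ) ^ 3 / G)) = P₁ * ((n : ℝ) ^ 3 * k / G) := by ring
        rw [← a3] at a2
        exact le_of_mul_le_mul_left a2 hkr
      intro j
      fin_cases j
      · exact hA.trans s1
      · exact hA'.trans s2
      · show |(fy p 2 : ℝ)| ≤ ρ * (1 / b)
        rw [mul_one_div]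
        exact hB.trans s3
      · show |(fy p 3 : ℝ)| ≤ ρ * (1 / b ^ 5)
        rw [mul_one_div]
        exact hX.trans s4
    · intro v hv v' hv' hne
      rw [mem_image] at hv hv'
      obtain ⟨p, hp, rfl⟩ := hv
      obtain ⟨p', hp', rfl⟩ := hv'
      have h1 := (hP p hp).inG
      have h2 := (hP p' hp').inG
      obtain ⟨-, hadd, -⟩ := hN2
      have h3 := (hadd δ r _ _ h1 (hadd δ r _ _ h2 h2).2).1
      obtain ⟨z, hz⟩ : ∃ z : V4, z = (fy p 0, fy p 1, fy p 2, fy p 3) + -(fy p' 0, fy p' 1, fy p' 2, fy p' 3) := ⟨_, rfl⟩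
      have hz0 : z ≠ 0 := by
        intro h0
        apply hne
        rw [h0] at hz
        have c1 := congrArg Prod.fst hz
        have c2 := congrArg (fun t : V4 => t.2.1) hz
        have c3 := congrArg (fun t : V4 => t.2.2.1) hz
        have c4 := congrArg (fun t : V4 => t.2.2.2) hz
        have d1 : (0 : ℤ) = fy p 0 + -fy p' 0 := c1
        have d2 : (0 : ℤ) = fy p 1 + -fy p' 1 := c2
        have d3 : (0 : ℤ) = fy p 2 + -fy p' 2 := c3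
        have d4 : (0 : ℤ) = fy p 3 + -fy p' 3 := c4
        funext j
        fin_cases j
        · show fy p 0 = fy p' 0
          linarith
        · show fy p 1 = fy p' 1
          linarith
        · show fy p 2 = fy p' 2
          linarith
        · show fy p 3 = fy p' 3
          linarith
      have h4 := hlam z hz0 (by rw [hz]; exact h3)
      have z1 : z.1 = fy p 0 - fy p' 0 := by rw [hz]; show fy p 0 + -fy p' 0 = _; ring
      have z2 : z.2.1 = fy p 1 - fy p' 1 := by rw [hz]; show fy p 1 + -fy p' 1 = _; ring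
      have z3 : z.2.2.1 = fy p 2 - fy p' 2 := by rw [hz]; show fy p 2 + -fy p' 2 = _; ring
      have z4 : z.2.2.2 = fy p 3 - fy p' 3 := by rw [hz]; show fy p 3 + -fy p' 3 = _; ring
      rw [nrm, z1, z2, z3, z4, le_max_iff, le_max_iff, le_max_iff] at h4
      rcases h4 with (h4 | h4) | (h4 | h4)
      · exact ⟨0, (le_div_iff₀ (by positivity : (0 : ℝ) < b ^ 5)).1 h4⟩
      · exact ⟨1, (le_div_iff₀ hb0).1 h4⟩
      · refine ⟨2, ?_⟩
        show lamb b δ r * (1 / b) ≤ _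
        rw [mul_one_div]
        exact (div_le_iff₀ hb0).2 h4
      · refine ⟨3, ?_⟩
        show lamb b δ r * (1 / b ^ 5) ≤ _
        rw [mul_one_div]
        exact (div_le_iff₀ (by positivity : (0 : ℝ) < b ^ 5)).2 h4
    · intro w hw hwl
      have hw' : ∀ i, ∃ p ∈ N, fy p = w i := fun i => mem_image.1 (hw i)
      choose p hp hpw using hw'
      have hyl : LinearIndependent ℤ (fun i => fy (p i)) := by
        have : (fun i => fy (p i)) = w := funext hpw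
        rw [this]
        exact hwl
      exact hLI (fun i => fx (p i)) (fun i => mem_image_of_mem fx (hp i))
        (END_li hn hk p (fun i => fx (p i)) (fun i => fy (p i)) (fun i => hP _ (hp i)) hyl)

end Pool.Agent.T6
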